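import Pool.Agent.H20.T4.Cm

/-!
Project TM4: sub-rows of CELL.
-/

namespace Pool.Agent.H20.T4

open Finset Pool.Agent.H9.TC

/-- (CC) one tuple of shifts `r_i = h_i + D t_i` with nonzero `Δ`s in a good cell: the sum over the
cell of the product of the digits below `2a` is small. From (GU), (CM), (LINM): for a good base
point `n = n0 + D x` most `s` have `Gen`; `Pt` at `n0 + (s + h_i) + D (x + t_i)` is counted in the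
doubled box; for `Gen` the sum over `m` is small by (LINM) and (CM). -/
def CCStmt : Prop :=
  ∀ (q1 q c Cf Kn : ℕ) (ε : ℝ), 1 ≤ q → 1 ≤ c → 0 < ε →
    ∃ ε1 : ℝ, 0 < ε1 ∧ ∀ g1 : ℕ, ∃ g L g9 w0 : ℕ, g1 ≤ g ∧ 1 ≤ L ∧ ∀ w ≥ w0,
    ∀ kk V ν a ED D p v1 K1 K2 M τ : ℕ, a + w = ν → 2000 * w ≤ ED → 10 * ED ≤ ν → 1 ≤ D →
    D ≤ 2 ^ ED → w = C1 q * p → K1 ≤ Kn → K2 ≤ Kn →
    (20 * q + 16) * p ≤ v1 → v1 ≤ (20 * q + 17) * p → ED + 2000 * w ≤ v1 + K1 * p →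
    v1 + K1 * p + L + (2 * q + 4) * p + K2 * p = a →
    q * (2 * q + 5) * p < τ → τ ≤ q * (2 * q + 5) * p + 1 →
    2 ^ (w - 1) ≤ M → M ≤ 2 ^ w →
    ∀ d e f g' : Fin q1 → ℤ, (∀ i, |d i| ≤ Cf) → ∀ n0 : ℕ,
    CellGood q p L g g9 v1 K1 K2 M τ c kk w a V D ε1 d e f g' n0 →
    ∀ (ip : Fin q → Fin q1) (h t : Fin q → ℕ), (∀ i, h i ≤ 2 ^ (72 * w)) →
      (∀ i, t i ≤ 2 ^ (18 * w)) →
      (∀ i i', i ≠ i' → del c (d (ip i)) (d (ip i')) (h i + D * t i) (h i' + D * t i') ≠ 0) →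
    |∑ m ∈ range M, ∑ x ∈ range (2 ^ (18 * w)), ∑ s ∈ range (2 ^ (400 * w)),
      ∏ i, TW 0 (2 * a) (qua c (d (ip i)) (e (ip i)) (f (ip i)) (g' (ip i))
        (n0 + s + D * x + 2 ^ a * m + (h i + D * t i)))| ≤
      ε * (2 ^ (400 * w) * 2 ^ (18 * w) * M)

/-- (BA) block average: if most cells have a small sum then the whole sum is small. -/
def BAStmt : Prop :=
  ∀ (a β A B M R : ℕ) (Dd : ℕ → ℕ) (F : ℕ → ℝ) (ε : ℝ), (∀ n, |F n| ≤ 1) → β ≤ a → 1 ≤ A →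
    1 ≤ B → 0 ≤ ε → (∀ b, A + B * Dd b ≤ R) →
    (cnt (2 ^ a) (fun n0 => ¬ |∑ m ∈ range M, ∑ x ∈ range B, ∑ s ∈ range A,
      F (n0 + s + Dd (n0 / 2 ^ β) * x + 2 ^ a * m)| ≤ ε * (A * B * M)) : ℝ) ≤ ε * 2 ^ a →
    |∑ n ∈ range (2 ^ a * M), F n| ≤ 2 * ε * 2 ^ a * M + 2 * 2 ^ (a - β) * R * M

end Pool.Agent.H20.T4
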