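import Pool.Agent.H9.TC.Main0
import Pool.Agent.H20.T4.Stm2
import Pool.Agent.H48.T4.WS
import Pool.Agent.H48.T4.Dir
import Pool.Agent.H61.T4.Dex
import Pool.Agent.H33.T4.NB
import Pool.Agent.H54.T4.G1
import Pool.Agent.H41.T4.G3
import Pool.Agent.H10.T4.PT
import Pool.Agent.H7.T4.Lin
import Pool.Agent.H7.T4.B3
import Pool.Agent.H2.T4.B2
import Pool.Agent.H30.T4.B5
import Pool.Agent.H39.T4.Win
import Pool.Agent.H59.T4.Gap
import Pool.Agent.H48.T4.Top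
import Pool.Agent.H84.T4.N2Full
import Pool.Agent.H33.T4.CC
import Pool.Agent.H44.T4.CellDir
import Pool.Agent.H44.T4.Trans
import Pool.Agent.H9.T4.Cell
import Pool.Agent.H51.T4.MostFin
import Pool.Agent.H96.T4.P5
import Pool.Agent.H26.T4.Cut
import Pool.Agent.H43.T4.ThmA
import Pool.Agent.H43.T4.Fin4

/-!
Project TM4: assembly of the rows, with the rows N4, GU, LINM, VC, JG, AVG as hypotheses.
-/

namespace Pool.Agent.H20.T4

open Pool.Agent.H9.TC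

theorem asm (hN4 : N4Stmt) (hGU : GUStmt) (hLM : LINMStmt) (hVC : VCStmt) (hJG : JGStmt)
    (hAVG : AVGStmt) : ThmAStmt := by
  have hPT : PTStmt := pt (g1 Pool.Agent.H48.T4.w3) hN4 (g3 Pool.Agent.H48.T4.w3)
  have hMOST : MOSTStmt := Pool.Agent.H51.T4.most (nb Pool.Agent.H48.T4.w4) hPT
    (Pool.Agent.H2.T4.b2 Pool.Agent.H7.T4.lin) Pool.Agent.H7.T4.b3
    (Pool.Agent.H30.T4.b5 Pool.Agent.H7.T4.lin) hAVG
  have hCM : CMStmt := cm (kk k1) (cg adj (cd vdc))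
  have hCC : CCStmt := cc hGU hCM hLM
  have hCELL : CELLStmt := Pool.Agent.H9.T4.cell hVC hJG
    (Pool.Agent.H44.T4.cellDirs (Pool.Agent.H48.T4.top Pool.Agent.H48.T4.dir)
      (Pool.Agent.H59.T4.gap Pool.Agent.H48.T4.dir))
    (Pool.Agent.H44.T4.trans Pool.Agent.H39.T4.win) hCC
  have hP5 : P5Stmt := Pool.Agent.H96.T4.p5 Pool.Agent.H61.T4.dex hCELL hMOST
  exact Pool.Agent.H43.T4.thmA Pool.Agent.H9.TC.v0 hP5 Pool.Agent.H26.T4.cut

end Pool.Agent.H20.T4
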