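import Pool.Agent.H20.T4.Stm
import Pool.Agent.H9.TC.P5a

/-!
Project TM4: row LINM.
-/

namespace Pool.Agent.H20.T4

open Pool.Agent.H9.TC

theorem qua_add (c d e f g x : ℤ) (a : ℕ) (m : ℤ) :
    (2 : ℤ) ^ (2 * a) ∣ qua c d e f g (x + 2 ^ a * m) -
      (qua c d e f g x + 2 ^ a * (m * dqua c d e f x)) := by
  refine ⟨m ^ 2 * (6 * c * x ^ 2 + 4 * c * x * (2 ^ a * m) + c * (2 ^ a * m) ^ 2 + 3 * d * x +
    d * (2 ^ a * m) + e), ?_⟩
  unfold qua dqua
  rw [two_mul a, pow_add]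
  ring

/-- (LINM). -/
theorem linm : LINMStmt := by
  intro c d e f g x a m
  rw [TW_congr (qua_add c d e f g x a m), TW_low_high (by omega : a ≤ 2 * a)]
  congr 2
  omega

end Pool.Agent.H20.T4
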