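import Pool.Agent.H20.T4.Defs

/-!
Project TM4 (MP_b6022c_nt). Statements of the rows. Every row proves `theorem xxx : XxxStmt`
(or `theorem xxx (h : YyyStmt) ... : XxxStmt`) in its own file `Pool/Agent/H<nn>/T4/Xxx.lean`.
-/

namespace Pool.Agent.H20.T4

open Finset Pool.Agent.H9.TC Pool.Agent.H20.TM

/-! ### 1. Weyl differencing -/

/-- (WS) one Weyl / van der Corput step. -/
def WSStmt : Prop :=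
  ∀ (g : ℤ → ℂ), (∀ x, ‖g x‖ ≤ 1) → ∀ (N H K0 : ℕ) (δ : ℝ), 1 ≤ N → 1 ≤ H → 1 ≤ K0 → 0 ≤ δ →
    (∀ k : ℕ, K0 ≤ k → k < H → ∀ N' ≤ N,
      ‖∑ n ∈ range N', g ((n : ℤ) + k) * (starRingEnd ℂ) (g n)‖ ≤ δ * N) →
    ∀ N' ≤ N, ‖∑ n ∈ range N', g n‖ ^ 2 ≤ (N : ℝ) ^ 2 * (2 * δ + 6 * K0 / H + H / N)

/-- (W2). -/
def W2Stmt : Prop :=
  ∀ (t2 t1 t0 : ℝ) (N H K0 : ℕ) (η : ℝ), 1 ≤ N → 1 ≤ H → 1 ≤ K0 → 0 < η →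
    (∀ k : ℕ, K0 ≤ k → k < H → η ≤ nn (2 * k * t2)) →
    ∀ N' ≤ N, ‖∑ n ∈ range N', ee (t2 * (n : ℝ) ^ 2 + t1 * n + t0)‖ ^ 2 ≤
      (N : ℝ) ^ 2 * (1 / (η * N) + 6 * K0 / H + H / N)

/-- (W3). -/
def W3Stmt : Prop :=
  ∀ (t3 t2 t1 t0 : ℝ) (N H K0 : ℕ) (η : ℝ), 1 ≤ N → 1 ≤ H → 1 ≤ K0 → 0 < η →
    (∀ k1 k2 : ℕ, K0 ≤ k1 → k1 < H → K0 ≤ k2 → k2 < H → η ≤ nn (6 * k1 * k2 * t3)) →
    ∀ N' ≤ N, ‖∑ n ∈ range N', ee (t3 * (n : ℝ) ^ 3 + t2 * (n : ℝ) ^ 2 + t1 * n + t0)‖ ^ 4 ≤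
      (N : ℝ) ^ 4 * (10 * (1 / (η * N) + 6 * K0 / H + H / N))

/-- (W4). -/
def W4Stmt : Prop :=
  ∀ (t4 t3 t2 t1 t0 : ℝ) (N H K0 : ℕ) (η : ℝ), 1 ≤ N → 1 ≤ H → 1 ≤ K0 → 0 < η →
    (∀ k1 k2 k3 : ℕ, K0 ≤ k1 → k1 < H → K0 ≤ k2 → k2 < H → K0 ≤ k3 → k3 < H →
      η ≤ nn (24 * k1 * k2 * k3 * t4)) →
    ∀ N' ≤ N,
      ‖∑ n ∈ range N', ee (t4 * (n : ℝ) ^ 4 + t3 * (n : ℝ) ^ 3 + t2 * (n : ℝ) ^ 2 + t1 * n + t0)‖ ^ 8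
        ≤ (N : ℝ) ^ 8 * (1300 * (1 / (η * N) + 6 * K0 / H + H / N))

/-! ### 2. Point properties (densities of bad points on `[0, 2^a)`) -/

/-- (NB) near-boundary values of a quartic polynomial at the levels `u <= 3ν + C'`: from (W4) with
`H = 2^((u-C)/3)` (the numbers `24 k1 k2 k3 h c / 2^u` do not reach `1/2`), (F1), (F2). -/
def NBStmt : Prop :=
  ∀ (c : ℕ) (d e f g' : ℤ) (C' : ℕ) (ε : ℝ), 1 ≤ c → 0 < ε → ∃ G0 : ℕ, ∀ g ≥ G0, ∃ ν0 : ℕ,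
    ∀ ν ≥ ν0, ∀ u : ℕ, ν ≤ u → u ≤ 3 * ν + C' →
      (cnt (2 ^ ν) (fun n => near u ((2 : ℤ) ^ (u - g)) (qua c d e f g' n)) : ℝ) ≤ ε * 2 ^ ν

/-- (G1) for most `n < 2^a`: `Nr M g u (P'(n))`, for the levels `24 p <= u <= a`. Two regimes:
`u <= a/2`: `H = 2^(8p)`, `K0 = 1`, 2-adic valuations; `u > a/2`: `H = 2^((u-μ-C)/2)`, size only. -/
def G1Stmt : Prop :=
  ∀ (c g : ℕ), 1 ≤ c → 1 ≤ g → ∃ C : ℝ, ∃ p0 : ℕ, ∀ p ≥ p0, ∀ u a μ M : ℕ,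
    24 * p ≤ u → u ≤ a → 2 ^ p ≤ M → M ≤ 2 ^ μ → 4 * μ + 200 * p ≤ a → ∀ d e f : ℤ,
      (cnt (2 ^ a) (fun n => ¬ Nr M g u (dqua c d e f n)) : ℝ) * 2 ^ p ≤ C * 2 ^ a

/-- (N4) direction of the lowest window `[0, v1)`; phase `t K 2^v1 P'(n)/2^(uf+L)`, (W3) with
`K0 = 1`, `H = 2^(5p)`. -/
def N4Stmt : Prop :=
  ∀ (q c L g9 : ℕ), 1 ≤ q → 1 ≤ c → 1 ≤ L → ∃ C : ℝ, ∃ p0 : ℕ, ∀ p ≥ p0, ∀ v1 uf a : ℕ,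
    v1 + (12 * q + 12) * p ≤ uf → 2 * (uf + L) ≤ a → ∀ d e f : ℤ,
      (cnt (2 ^ a) (fun n => ¬ Dir (∅ : Finset (Fin q)) 1 1 (2 ^ ((2 * q + 2) * p)) uf L g9
        (fun _ => 0) ((2 : ℤ) ^ v1 * dqua c d e f n)) : ℝ) * 2 ^ p ≤ C * 2 ^ a

/-- (G3) no small multiple modulo `2^va`; (W3) with `K0 = 1`, `H = 2^(8τ+4)`. -/
def G3Stmt : Prop :=
  ∀ (c : ℕ), 1 ≤ c → ∃ C : ℝ, ∃ τ0 : ℕ, ∀ τ ≥ τ0, ∀ va a : ℕ, 24 * τ ≤ va → va + 10 * τ ≤ a →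
    ∀ d e f : ℤ,
      (cnt (2 ^ a) (fun n => ∃ t : ℕ, 1 ≤ t ∧ t ≤ 2 ^ τ ∧
        small va ((2 : ℤ) ^ (va - 2 * τ)) ((t : ℤ) * dqua c d e f n)) : ℝ)
        * 2 ^ τ ≤ C * 2 ^ a

/-- (PT) union of (G1), (N4), (G3). -/
def PTStmt : Prop :=
  ∀ (q c g L g9 Kn : ℕ) (ε : ℝ), 1 ≤ q → 1 ≤ c → 1 ≤ g → 1 ≤ L → 0 < ε → ∃ p0 : ℕ, ∀ p ≥ p0,
    ∀ v1 K1 K2 M μ τ a : ℕ, K1 ≤ Kn → K2 ≤ Kn → 24 * p ≤ v1 →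
    (12 * q + 12) ≤ K1 → 2 ^ p ≤ M → M ≤ 2 ^ μ → 4 * μ + 200 * p ≤ a → p ≤ τ →
    v1 + K1 * p + L + (2 * q + 4) * p + K2 * p ≤ a →
    2 * (v1 + K1 * p + L + (2 * q + 4) * p) + 10 * τ ≤ a →
    24 * τ ≤ v1 + K1 * p → ∀ d e f : ℤ,
      (cnt (2 ^ a) (fun n => ¬ Pt q p L g g9 v1 K1 K2 M τ c d e f n) : ℝ) ≤ ε * 2 ^ a

/-! ### 3. Directions for tuples of slopes (fixed base point, average over `s < 2^σ`) -/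

/-- (N2) windows BELOW the final window. (`a ∈ Z^S` with `|a_i| <= 2^((2q+3)p)`, `As = sum a_i`,
`Hs = sum a_i h_i`, `Ts = sum a_i t_i`, `Ds = sum a_i d_i`.) If `As <> 0` and
`v <= 3σ - (40q+26)p`: (W3) on `s < 2^σ` (size only); otherwise (W2) on the short blocks of length
`2^sb`, `sb = σ - (16q+12)p`, where the cubic term and the terms `t K r_* / 2^(uf+L)` are
negligible. Then (M0) and (G). -/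
def N2Stmt : Prop :=
  ∀ (q c L g9 Cf : ℕ), 1 ≤ q → 1 ≤ c → 1 ≤ L → ∃ C : ℝ, ∃ p0 : ℕ, ∀ p ≥ p0,
    ∀ v uf σ κh κt ED D : ℕ, (20 * q + 16) * p ≤ v → v ≤ uf → (60 * q + 60) * p ≤ σ →
    3 * σ + (60 * q + 60) * p ≤ uf → κh + κt + ED + σ + (20 * q + 20) * p ≤ uf → D ≤ 2 ^ ED →
    ∀ n : ℤ,
      cnt (2 ^ ((16 * q + 12) * p)) (fun s1 => Bad2 q c L g9 p v uf (σ - (16 * q + 12) * p)
        κh κt D (n + s1 * 2 ^ (σ - (16 * q + 12) * p))) ≤ 2 ^ ((14 * q + 10) * p) →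
    ∀ d e f h t r : Fin q → ℤ, (∀ i, |d i| ≤ Cf) → (∀ i, |h i| ≤ 2 ^ κh) → (∀ i, |t i| ≤ 2 ^ κt) →
      (∀ i, r i = h i + D * t i) → ∀ is : Fin q,
      (cnt (2 ^ σ) (fun s => ¬ Dir univ v (2 ^ (v - 2 * p)) (2 ^ ((2 * q + 2) * p)) uf L g9
        (slo c d e f r n s) (slo c d e f r n s is)) : ℝ) * 2 ^ p ≤ C * 2 ^ σ

/-- (N3) windows ABOVE the final window: everything except
`12 c t n (As + 2^(v-uf-L) K)/2^v` is negligible; (W2) on `s < 2^σ`. -/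
def N3Stmt : Prop :=
  ∀ (q c L g9 Cf : ℕ), 1 ≤ q → 1 ≤ c → 1 ≤ L → ∃ C : ℝ, ∃ p0 : ℕ, ∀ p ≥ p0,
    ∀ v uf σ R : ℕ, uf + L + (2 * q + 4) * p ≤ v → (60 * q + 60) * p ≤ σ →
    3 * σ + (60 * q + 60) * p ≤ uf → R + σ + (20 * q + 20) * p ≤ uf →
    ∀ n : ℤ, ¬ Bad3 q c L g9 p v uf σ n →
    ∀ d e f r : Fin q → ℤ, (∀ i, |d i| ≤ Cf) → (∀ i, |r i| ≤ 2 ^ R) → ∀ is : Fin q,
      (cnt (2 ^ σ) (fun s => ¬ Dir univ v (2 ^ (v - 2 * p)) (2 ^ ((2 * q + 2) * p)) uf L g9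
        (slo c d e f r n s) (slo c d e f r n s is)) : ℝ) * 2 ^ p ≤ C * 2 ^ σ

/-- (N5) eliminations. `S = {i'}`, `v = uf + L`. If `a + K <> 0`: (W2) and `¬ Bad3`; if `a = -K`:
linear sum and `¬ Bad5`. -/
def N5Stmt : Prop :=
  ∀ (q c L g9 Cf : ℕ), 1 ≤ q → 1 ≤ c → 1 ≤ L → ∃ C : ℝ, ∃ p0 : ℕ, ∀ p ≥ p0,
    ∀ uf σ R : ℕ, (60 * q + 60) * p ≤ σ →
    3 * σ + (60 * q + 60) * p ≤ uf → R + 2 * σ + (20 * q + 20) * p ≤ uf →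
    ∀ n : ℤ, ¬ Bad3 q c L g9 p (uf + L) uf σ n →
    ∀ d e f r : Fin q → ℤ, (∀ i, |d i| ≤ Cf) → (∀ i, |r i| ≤ 2 ^ R) → ∀ is i' : Fin q, is ≠ i' →
      ¬ Bad5 q L g9 p uf σ (del c (d is) (d i') (r is) (r i'))
        (del1 c (d is) (d i') (e is) (e i') (r is) (r i')) n →
      (cnt (2 ^ σ) (fun s => ¬ Dir {i'} (uf + L) (2 ^ (uf + L - 2 * p)) (2 ^ ((2 * q + 2) * p))
        uf L g9 (slo c d e f r n s) (slo c d e f r n s is)) : ℝ) * 2 ^ p ≤ C * 2 ^ σ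

/-- (GU) union of (N2), (N3), (N5) and the point properties: a good base point `n = n0 + D x` and
ANY admissible tuple `r`: `Gen` for most `s`. `ip i` = which of the `q1` polynomials. -/
def GUStmt : Prop :=
  ∀ (q1 q c g L g9 Kn Cf : ℕ) (ε : ℝ), 1 ≤ q → 1 ≤ c → 1 ≤ g → 1 ≤ L → 0 < ε → ∃ p0 : ℕ,
    ∀ p ≥ p0, ∀ v1 K1 K2 M τ σ κh κt ED D : ℕ, K1 ≤ Kn → K2 ≤ Kn → (20 * q + 16) * p ≤ v1 →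
    D ≤ 2 ^ ED → (60 * q + 60) * p ≤ σ → 3 * σ + (60 * q + 60) * p ≤ v1 + K1 * p →
    κh + κt + ED + 2 * σ + (30 * q + 30) * p ≤ v1 + K1 * p →
    ∀ d e f : Fin q1 → ℤ, (∀ i, |d i| ≤ Cf) → ∀ n : ℤ,
    Gb q p L g9 v1 K1 K2 σ κh κt c D d e n →
    ∀ (ip : Fin q → Fin q1) (h t r : Fin q → ℤ) (i0 : Fin q), (∀ i, |h i| ≤ 2 ^ κh) →
      (∀ i, |t i| ≤ 2 ^ κt) → (∀ i, r i = h i + D * t i) →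
      (∀ i i', i ≠ i' → del c (d (ip i)) (d (ip i')) (r i) (r i') ≠ 0) →
      (cnt (2 ^ σ) (fun s => ¬ Gen p L g g9 v1 K1 K2 M τ i0
        (slo c (fun i => d (ip i)) (fun i => e (ip i)) (fun i => f (ip i)) r n s)) : ℝ) ≤
        ε * 2 ^ σ + ∑ i : Fin q, (cnt (2 ^ σ) (fun s => ¬ Pt q p L g g9 v1 K1 K2 M τ c
          (d (ip i)) (e (ip i)) (f (ip i)) (n + s + r i)) : ℝ)

/-! ### 4. Counting bad base points -/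

/-- (LIN) linear functions modulo `2^E`: if `2^X` does not divide `Y`, then on an interval of
length `2^β`, `E <= β`, the number of `n` with `n Y + Y0` within `W` of `0` modulo `2^E` is at
most `2^β ((2W+1)/2^E + 2^X/2^E)`. -/
def LINStmt : Prop :=
  ∀ (Y Y0 n1 : ℤ) (E X β : ℕ) (W : ℤ), ¬ (2 : ℤ) ^ X ∣ Y → X ≤ E → E ≤ β → 0 ≤ W →
    (cnt (2 ^ β) (fun b => small E W ((n1 + b) * Y + Y0)) : ℝ) * 2 ^ E ≤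
      2 ^ β * (2 * W + 1 + 2 ^ X)

/-- (B2) density of `Bad2` in a block of length `2^β`. -/
def B2Stmt : Prop :=
  ∀ (q c L g9 : ℕ), 1 ≤ q → 1 ≤ c → 1 ≤ L → ∃ p0 : ℕ, ∀ p ≥ p0,
    ∀ v uf sb κh κt D β : ℕ, v ≤ uf → uf + L ≤ β → κh + κt + (60 * q + 60) * p ≤ sb →
    sb + κh + κt + (60 * q + 60) * p ≤ uf → ∀ n1 : ℤ,
      (cnt (2 ^ β) (fun b => Bad2 q c L g9 p v uf sb κh κt D (n1 + b)) : ℝ)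
        * 2 ^ ((10 * q + 10) * p) ≤ 2 ^ β

/-- (B3) density of `Bad3` on `[0, 2^a)` (`v <= a`; `v = uf + L` or `v >= uf + L + (2q+4)p`). -/
def B3Stmt : Prop :=
  ∀ (q c L g9 : ℕ), 1 ≤ q → 1 ≤ c → 1 ≤ L → ∃ p0 : ℕ, ∀ p ≥ p0,
    ∀ v uf σ a : ℕ, (v = uf + L ∨ uf + L + (2 * q + 5) * p ≤ v) → v ≤ a →
    (60 * q + 60) * p ≤ σ → σ + (60 * q + 60) * p ≤ uf →
      (cnt (2 ^ a) (fun n => Bad3 q c L g9 p v uf σ n) : ℝ) * 2 ^ ((10 * q + 10) * p) ≤ 2 ^ a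

/-- (B5) density of `Bad5` in a block, for one pair. -/
def B5Stmt : Prop :=
  ∀ (q L g9 : ℕ), 1 ≤ q → 1 ≤ L → ∃ p0 : ℕ, ∀ p ≥ p0,
    ∀ uf σ R β : ℕ, uf + L ≤ β → R + σ + (10 * q + 10) * p ≤ uf → ∀ Δ Δ1 : ℤ, Δ ≠ 0 →
    |Δ| ≤ 2 ^ R → ∀ n1 : ℤ,
      (cnt (2 ^ β) (fun b => Bad5 q L g9 p uf σ Δ Δ1 (n1 + b)) : ℝ) * 2 ^ σ ≤
        2 ^ β * 2 ^ ((8 * q + 8) * p)

/-! ### 5. The shifts -/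

/-- (REC) simultaneous recurrence. -/
def RECStmt : Prop :=
  ∀ m : ℕ, ∃ C : ℕ, ∀ κ : ℕ, 1 ≤ κ → ∀ a b : Fin m → ℝ, ∃ D : ℕ, 1 ≤ D ∧ D ≤ 2 ^ (C * κ) ∧
    (∀ i, nn (D * a i) ≤ (1 / 2) ^ κ) ∧ (∀ i, nn ((D : ℝ) ^ 2 * b i) ≤ (1 / 2) ^ κ)

/-- (DEX) existence of `D` for every block `n1 + [0, 2^β)`, from (REC) with the 1440 numbers
`6 c n1^2 / 2^v`, `12 c 2^a n1 / 2^v`, `6 c 2^(2a) / 2^v`, `v = 2a + l w`. -/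
def DEXStmt : Prop :=
  ∃ CR : ℕ, 2000 ≤ CR ∧ ∀ c : ℕ, 1 ≤ c → ∃ w0 : ℕ, ∀ w ≥ w0, ∀ ν a β : ℕ, a + w = ν →
    β + 3 * (CR * w) ≤ ν → 10 * (CR * w) ≤ ν → ∀ n1 : ℕ, n1 ≤ 2 ^ ν →
    ∃ D : ℕ, 1 ≤ D ∧ D ≤ 2 ^ (CR * w) ∧ ∀ b : ℕ, b < 2 ^ β → Dcond c w a D (n1 + b)

/-- (DIR) Dirichlet for `m` integers modulo `2^v` with precisions `B_i` bits. -/
def DIRStmt : Prop :=
  ∀ (m : ℕ) (x : Fin m → ℤ) (v : ℕ) (B : Fin m → ℕ), (∀ i, B i ≤ v) →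
    ∃ h : ℕ, 1 ≤ h ∧ h ≤ 2 ^ (∑ i, B i) ∧ ∀ i, small v ((2 : ℤ) ^ (v - B i)) (h * x i)

/-- (TOP) directions of the top windows `[2a + (l-1)w, 2a + l w)`, `l > 480`; (DIR) with the seven
numbers `4 c n0^3`, `12 c 2^a n0^2`, `12 c 2^(2a) n0`, `4 c 2^(3a)`, `12 c D n0^2`,
`24 c D 2^a n0`, `12 c D 2^(2a)`. -/
def TOPStmt : Prop :=
  ∀ (c Cf g Z kk : ℕ), 1 ≤ c → ∃ w0 : ℕ, ∀ w ≥ w0, ∀ ν a ED D : ℕ, a + w = ν → 2000 * w ≤ ED →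
    10 * ED ≤ ν → 1 ≤ D → D ≤ 2 ^ ED → ∀ n0 : ℕ, n0 < 2 ^ ν → ∀ l : ℕ, 480 < l → l ≤ kk →
    ∃ h : ℕ, 1 ≤ h ∧ h ≤ 2 ^ (71 * w) ∧
      Close c Cf g Z w a D (2 * a + (l - 1) * w) (2 * a + l * w) n0 h

/-- (GAP) directions of the gap windows, `1 <= l <= 480`; (DIR) with the seven numbers
`4 c D n0^3`, `12 c D 2^a n0^2`, `12 c D 2^(2a) n0`, `4 c D 2^(3a)`, `3 D n0^2`, `6 D 2^a n0`,
`3 D 2^(2a)`. -/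
def GAPStmt : Prop :=
  ∀ (c Cf g Z : ℕ), 1 ≤ c → ∃ w0 : ℕ, ∀ w ≥ w0, ∀ ν a ED D : ℕ, a + w = ν → 2000 * w ≤ ED →
    10 * ED ≤ ν → 1 ≤ D → D ≤ 2 ^ ED → ∀ n0 : ℕ, n0 < 2 ^ ν → Dcond c w a D n0 →
    ∀ l : ℕ, 1 ≤ l → l ≤ 480 →
    ∃ t : ℕ, 1 ≤ t ∧ t ≤ 2 ^ (17 * w) ∧
      Close c Cf g Z w a D (2 * a + (l - 1) * w) (2 * a + l * w) n0 (D * t)

/-- (JG) generic `j`: for directions `H_l >= 1` all `Δ` are nonzero for most `j` in the box. -/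
def JGStmt : Prop :=
  ∀ (kk q1 c J : ℕ) (d : Fin q1 → ℤ) (H : Fin kk → ℕ), 1 ≤ c → 1 ≤ J → Function.Injective d →
    (∀ l, 1 ≤ H l) →
    ((((box kk J).filter (fun j => ∃ i i' : Fin q1, ∃ η η' : Fin kk → Bool,
      (i, η) ≠ (i', η') ∧ del c (d i) (d i') (psi 0 (fun l => (H l : ℤ)) η j)
        (psi 0 (fun l => (H l : ℤ)) η' j) = 0)).card : ℝ)) * J ≤
      (q1 * 2 ^ kk) ^ 2 * (box kk J).card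

/-! ### 6. The cell -/

/-- (WIN) the digits `[2a, V)` cancel in the cube product: `n` interior point, no near-boundary
point. Windows `[2a + l w, 2a + (l+1) w)`, `l < kk`, cut at `V`. -/
def WINStmt : Prop :=
  ∀ (kk w a V Z g : ℕ) (P : ℤ → ℤ) (H : Fin kk → ℤ) (j : ℕ × (Fin kk × Bool → ℕ)) (n : ℤ),
    j ∈ box kk (2 ^ Z) → 2 * a ≤ V → V ≤ 2 * a + kk * w → g ≤ 2 * a →
    (∀ l : Fin kk, ∀ η, ∀ δ : ℤ, |δ| ≤ 2 ^ Z →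
      small (2 * a + (l + 1) * w) ((2 : ℤ) ^ (2 * a + l * w - g))
        (P (n + psi 0 H η j + δ * H l) - P (n + psi 0 H η j))) →
    (∀ l : Fin kk, 2 * a + l * w ≤ V → ∀ η, ¬ near (2 * a + l * w)
      ((2 : ℤ) ^ (2 * a + l * w - g)) (P (n + psi 0 H η j))) →
    ∏ η, TW 0 V (P (n + psi 0 H η j)) = ∏ η, TW 0 (2 * a) (P (n + psi 0 H η j))

/-- (LINM) linearisation: `TW 0 (2a)` of `P(x + 2^a m)`. -/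
def LINMStmt : Prop :=
  ∀ (c d e f g x : ℤ) (a : ℕ) (m : ℤ),
    TW 0 (2 * a) (qua c d e f g (x + 2 ^ a * m)) =
      TW 0 a (qua c d e f g x) * TW 0 a (qua c d e f g x / 2 ^ a + m * dqua c d e f x)

/-- (VC) van der Corput on the cell: a sum over `z < 2^σ 2^ξ M`, `z = s + 2^σ x + 2^(σ+ξ) m`.
`hs l`, `xt l` = shifts in `s` and in `x`. Points whose shifts leave the doubled box do not occur;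
`V` (TC) is applied to `z -> F(s, x, m)` with the shifts `hs l + 2^σ xt l`. -/
def VCStmt : Prop :=
  ∀ (k J A B M : ℕ) (F : ℕ → ℕ → ℕ → ℝ) (hs xt : Fin k → ℕ) (ρ : ℝ),
    1 ≤ J → 1 ≤ A → 1 ≤ B → 1 ≤ M → (∀ s x m, |F s x m| ≤ 1) →
    ((J * ∑ l, hs l : ℕ) : ℝ) ≤ ρ * A → ((J * ∑ l, xt l : ℕ) : ℝ) ≤ ρ * B →
    |(∑ m ∈ range M, ∑ x ∈ range B, ∑ s ∈ range A, F s x m) / (A * B * M)| ^ (2 ^ k) ≤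
      |(∑ j ∈ box k J, ∑ m ∈ range M, ∑ x ∈ range B, ∑ s ∈ range A, ∏ η : Fin k → Bool,
        F (s + ∑ l, j.2 (l, η l) * hs l) (x + ∑ l, j.2 (l, η l) * xt l) m) /
          (A * B * M * (box k J).card)| + 100 * 4 ^ k * ρ

/-- (CELL) the sum over a good cell is small. `q = q1 2^kk` slopes; `σ = 400w`, `X = 2^(18w)`. -/
def CELLStmt : Prop :=
  ∀ (q1 c Cf kk Kn : ℕ) (ε : ℝ), 1 ≤ q1 → 1 ≤ c → 481 ≤ kk → 0 < ε →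
    ∃ ε1 : ℝ, 0 < ε1 ∧ ∀ g1 : ℕ, ∃ g L g9 w0 : ℕ, g1 ≤ g ∧ 1 ≤ L ∧ ∀ w ≥ w0,
    ∀ ν a ED D p v1 K1 K2 M τ C' : ℕ, a + w = ν → 2000 * w ≤ ED → 10 * ED ≤ ν → 1 ≤ D →
    D ≤ 2 ^ ED → 3 * ν + C' ≤ 2 * a + kk * w → 2 * a ≤ 3 * ν + C' →
    w = C1 (q1 * 2 ^ kk) * p → K1 ≤ Kn → K2 ≤ Kn →
    (20 * (q1 * 2 ^ kk) + 16) * p ≤ v1 → v1 ≤ (20 * (q1 * 2 ^ kk) + 17) * p →
    ED + 2000 * w ≤ v1 + K1 * p →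
    v1 + K1 * p + L + (2 * (q1 * 2 ^ kk) + 4) * p + K2 * p = a →
    (q1 * 2 ^ kk) * (2 * (q1 * 2 ^ kk) + 5) * p < τ →
    τ ≤ (q1 * 2 ^ kk) * (2 * (q1 * 2 ^ kk) + 5) * p + 1 →
    2 ^ (w - 1) ≤ M → M ≤ 2 ^ w →
    ∀ d e f g' : Fin q1 → ℤ, Function.Injective d → (∀ i, |d i| ≤ Cf) → (∀ i, |e i| ≤ Cf) →
      (∀ i, |f i| ≤ Cf) → (∀ i, |g' i| ≤ Cf) → ∀ n0 : ℕ, n0 < 2 ^ a → Dcond c w a D n0 →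
    CellGood (q1 * 2 ^ kk) p L g g9 v1 K1 K2 M τ c kk w a (3 * ν + C') D ε1 d e f g' n0 →
    |∑ m ∈ range M, ∑ x ∈ range (2 ^ (18 * w)), ∑ s ∈ range (2 ^ (400 * w)),
      ∏ i, TW 0 (3 * ν + C') (qua c (d i) (e i) (f i) (g' i) (n0 + s + D * x + 2 ^ a * m))| ≤
      ε * (2 ^ (400 * w) * 2 ^ (18 * w) * M)

/-! ### 7. Averages over the blocks, truncated theorem -/

/-- (AVG) a set of points of small density has small density in most cells. `Dd` = the number `D`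
of the block. -/
def AVGStmt : Prop :=
  ∀ (a β A B R : ℕ) (Dd : ℕ → ℕ) (Q : ℕ → ℕ → Prop), β ≤ a → (∀ b, A + B * Dd b ≤ R) →
    ((∑ n0 ∈ range (2 ^ a), cnt2 A B (fun s x => Q (n0 / 2 ^ β) (n0 + s + Dd (n0 / 2 ^ β) * x))
      : ℕ) : ℝ) ≤ A * B * (∑ b ∈ range (2 ^ (a - β)),
        ((cnt (2 ^ β) (fun y => Q b (b * 2 ^ β + y)) : ℝ) + R))

/-- (MOST) most cells are good: from (NB), (PT), (B2), (B3), (B5), (AVG). -/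
def MOSTStmt : Prop :=
  ∀ (q1 c Cf kk Kn C' CR : ℕ) (ε1 ε : ℝ), 1 ≤ q1 → 1 ≤ c → 481 ≤ kk → 2000 ≤ CR → 0 < ε1 →
    0 < ε → ∀ d e f g' : Fin q1 → ℤ, (∀ i, |d i| ≤ Cf) → ∃ g1 : ℕ, ∀ g ≥ g1, ∀ L g9 : ℕ,
    1 ≤ L → ∃ w0 : ℕ, ∀ w ≥ w0, ∀ ν a β p v1 K1 K2 M τ : ℕ, a + w = ν →
    β + 3 * (CR * w) = ν → 10 * (CR * w) ≤ ν → w = C1 (q1 * 2 ^ kk) * p →
    K1 ≤ Kn → K2 ≤ Kn →
    (20 * (q1 * 2 ^ kk) + 16) * p ≤ v1 → v1 ≤ (20 * (q1 * 2 ^ kk) + 17) * p →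
    CR * w + 2000 * w ≤ v1 + K1 * p → v1 + K1 * p ≤ CR * w + 2100 * w →
    v1 + K1 * p + L + (2 * (q1 * 2 ^ kk) + 4) * p + K2 * p = a →
    (q1 * 2 ^ kk) * (2 * (q1 * 2 ^ kk) + 5) * p < τ →
    τ ≤ (q1 * 2 ^ kk) * (2 * (q1 * 2 ^ kk) + 5) * p + 1 →
    2 ^ (w - 1) ≤ M → M ≤ 2 ^ w → ∀ Dd : ℕ → ℕ, (∀ b, Dd b ≤ 2 ^ (CR * w)) →
      (cnt (2 ^ a) (fun n0 => ¬ CellGood (q1 * 2 ^ kk) p L g g9 v1 K1 K2 M τ c kk w a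
        (3 * ν + C') (Dd (n0 / 2 ^ β)) ε1 d e f g' n0) : ℝ) ≤ ε * 2 ^ a

/-- (P5) truncated theorem. -/
def P5Stmt : Prop :=
  ∀ (q1 c : ℕ) (d e f g' : Fin q1 → ℤ) (C' : ℕ) (ε : ℝ), 1 ≤ q1 → 1 ≤ c →
    Function.Injective d → 0 < ε → ∃ ν0 : ℕ, ∀ ν ≥ ν0, ∀ N : ℕ, 2 ^ (ν - 1) ≤ N → N ≤ 2 ^ ν →
      |∑ n ∈ range N, ∏ i, TW 0 (3 * ν + C') (qua c (d i) (e i) (f i) (g' i) n)| ≤ ε * N

/-- (CUT) the digits above `V = 3ν + C'` do not change under shifts `j, j'`. -/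
def CutStmt : Prop :=
  ∀ (c : ℕ) (d e f g' : ℤ) (j j' : ℕ) (ε : ℝ), 1 ≤ c → 0 < ε → ∃ C0 : ℕ, ∀ C' ≥ C0, ∃ ν0 : ℕ,
    ∀ ν ≥ ν0, (cnt (2 ^ ν) (fun n => ¬ (0 ≤ qua c d e f g' (n + j) ∧
      0 ≤ qua c d e f g' (n + j') ∧ qua c d e f g' (n + j) / 2 ^ (3 * ν + C') =
        qua c d e f g' (n + j') / 2 ^ (3 * ν + C'))) : ℝ) ≤ ε * 2 ^ ν

/-- (THM A4). -/
def ThmAStmt : Prop :=
  ∀ (q0 c : ℕ) (d e f g' : Fin q0 → ℤ), 1 ≤ q0 → 1 ≤ c → Function.Injective d →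
    Filter.Tendsto (fun N : ℕ => (∑ n ∈ range N, ∏ i, sgz (qua c (d i) (e i) (f i) (g' i) n))
      / (N : ℝ)) Filter.atTop (nhds 0)

end Pool.Agent.H20.T4
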