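import Pool.Agent.H20.T4.Asm
import Pool.Agent.H20.T4.Linm
import Pool.Agent.H60.T4.N35
import Pool.Agent.H34.T4.GU
import Pool.Agent.H59.T4.Vc
import Pool.Agent.H59.T4.Jg
import Pool.Agent.H59.T4.Avg

/-!
Project TM4: assembly with the row N4 as the only hypothesis.
-/

namespace Pool.Agent.H20.T4

open Pool.Agent.H9.TC

theorem asm2 (hN4 : N4Stmt) : ThmAStmt :=
  asm hN4 (Pool.Agent.H34.T4.gu (Pool.Agent.H84.T4.n2_full m0Stmt gStmt)
    (n3 m0Stmt gStmt Pool.Agent.H48.T4.w2) (n5 m0Stmt gStmt Pool.Agent.H48.T4.w2))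
    linm Pool.Agent.H59.T4.vc Pool.Agent.H59.T4.jg Pool.Agent.H59.T4.avg

end Pool.Agent.H20.T4
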