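import Pool.Agent.H20.T4.Stm
import Pool.Agent.H9.TC.Core

/-!
Project TM4: the sum over `m` for one generic tuple of slopes (helper row for CELL).
-/

namespace Pool.Agent.H20.T4

open Finset Pool.Agent.H9.TC

/-- (CM) a tuple of slopes with `Gen` gives a small sum over `m`, for all `y`. -/
def CMStmt : Prop :=
  ∀ (q Kn : ℕ) (ε : ℝ), 1 ≤ q → 0 < ε → ∀ g1 : ℕ, ∃ g L g9 p0 : ℕ, g1 ≤ g ∧ 1 ≤ g ∧ 1 ≤ L ∧
    ∀ p ≥ p0, ∀ v1 K1 K2 M τ : ℕ, K1 ≤ Kn → K2 ≤ Kn → (20 * q + 16) * p ≤ v1 →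
    v1 ≤ (20 * q + 17) * p → q * (2 * q + 5) * p < τ → τ ≤ q * (2 * q + 5) * p + 1 →
    2 * τ ≤ v1 + K1 * p + L + (2 * q + 4) * p → 2 ^ (C1 q * p - 1) ≤ M →
    ∀ (i0 : Fin q) (σ : Fin q → ℤ), Gen p L g g9 v1 K1 K2 M τ i0 σ → ∀ y : Fin q → ℤ,
      |∑ m ∈ range M, ∏ i, TW 0 (v1 + K1 * p + L + (2 * q + 4) * p + K2 * p)
        (y i + (m : ℤ) * σ i)| ≤ ε * M

theorem cm_last {q p v1 M τ : ℕ} (hq : 1 ≤ q) (hp : 4 ≤ p)
    (hv : v1 ≤ (20 * q + 17) * p) (hτ : τ ≤ q * (2 * q + 5) * p + 1) (hM : 2 ^ (C1 q * p - 1) ≤ M) :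
    (2 : ℝ) ^ p * 2 ^ max ((2 * q + 2) * p + v1) (3 * τ) ≤ M := by
  have e1 : C1 q * p = 6 * (q * q * p) + 30 * (q * p) + 20 * p := by unfold C1; ring
  have e5 : (2 * q + 2) * p = 2 * (q * p) + 2 * p := by ring
  have e6 : (20 * q + 17) * p = 20 * (q * p) + 17 * p := by ring
  have e9 : q * (2 * q + 5) * p = 2 * (q * q * p) + 5 * (q * p) := by ring
  have f1 : p ≤ q * p := Nat.le_mul_of_pos_left _ hq
  have f2 : q * p ≤ q * q * p := by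
    rw [mul_assoc]; exact Nat.le_mul_of_pos_left _ hq
  rw [← pow_add]
  have h1 : p + max ((2 * q + 2) * p + v1) (3 * τ) ≤ C1 q * p - 1 := by omega
  calc (2 : ℝ) ^ (p + max ((2 * q + 2) * p + v1) (3 * τ))
      ≤ 2 ^ (C1 q * p - 1) := pow_le_pow_right₀ (by norm_num) h1
    _ ≤ M := by exact_mod_cast hM

theorem cm (hk : KStmt) (hg : CGStmt) : CMStmt := by
  intro q Kn ε hq hε g1
  set k : ℕ := 2 * Kn + q + 2 with hkdef
  obtain ⟨L0, hL0, c, hc0, hc1, hKB⟩ := hk k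
  set e0 : ℝ := ε ^ (2 ^ k) / 3 with he0
  have he0p : 0 < e0 := by positivity
  obtain ⟨g0, hg0⟩ := core_geo (2 * ((q * (2 * Kn + 3) * 2 ^ k + 1) * 8)) e0 he0p
  set g' : ℕ := max g0 (max g1 1) with hg'
  have hg'0 : g0 ≤ g' := le_max_left _ _
  have hg'1 : 1 ≤ g' := (le_max_right g1 1).trans (le_max_right _ _)
  have hg'2 : g1 ≤ g' := (le_max_left g1 1).trans (le_max_right _ _)
  obtain ⟨j, hj⟩ := exists_pow_lt_of_lt_one he0p hc1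
  set Z : ℕ := L0 * j with hZ
  have hZ0 : Z / L0 = j := Nat.mul_div_cancel_left j hL0
  set L : ℕ := Z + g' with hL
  set g9 : ℕ := g' + Z + k + 1 with hg9
  obtain ⟨p3, hp3⟩ := core_geo (8 * 4 ^ k * (2 ^ Z * (k + 1))) e0 he0p
  refine ⟨g', L, g9, p3 + 2 * L + g9 + 4, hg'2, hg'1, by omega, ?_⟩
  intro p hp v1 K1 K2 M τ hK1 hK2 hv1 hv2 hτ1 hτ2 hτ3 hM i0 σ hG y
  have hM0 : 1 ≤ M := (Nat.one_le_two_pow).trans hM
  have hMR : (0 : ℝ) < M := by exact_mod_cast hM0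
  have hbound := hg k q Z g' L g9 L0 p v1 K1 K2 M τ c i0 σ y (by omega) hM0 hc0
    hKB rfl ?_ (by omega) ?_ hτ1 hτ3 hG
  · have t1 : c ^ (Z / L0) ≤ e0 := by rw [hZ0]; exact hj.le
    have t2 : 2 * (((q : ℝ) * (K1 + K2 + 3) * 2 ^ k + 1) * 8 / 2 ^ g') ≤ e0 := by
      refine le_trans ?_ (hg0 g' hg'0)
      rw [mul_div_assoc' ]
      have h5 : ((K1 : ℝ) + K2 + 3) ≤ 2 * Kn + 3 := by
        have h6 : (K1 : ℝ) ≤ Kn := by exact_mod_cast hK1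
        have h7 : (K2 : ℝ) ≤ Kn := by exact_mod_cast hK2
        linarith
      gcongr
    have t3 : 8 * 4 ^ k * ((2 : ℝ) ^ Z * (k + 1) * 2 ^ max ((2 * q + 2) * p + v1) (3 * τ)) / M ≤
        e0 := by
      refine le_trans ?_ (hp3 p (by omega))
      have h6 := cm_last (q := q) (p := p) (v1 := v1) (M := M) hq (by omega) hv2 hτ2 hM
      rw [div_le_div_iff₀ hMR (by positivity)]
      calc 8 * 4 ^ k * ((2 : ℝ) ^ Z * (k + 1) * 2 ^ max ((2 * q + 2) * p + v1) (3 * τ)) * 2 ^ p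
          = 8 * 4 ^ k * ((2 : ℝ) ^ Z * (k + 1)) *
            (2 ^ p * 2 ^ max ((2 * q + 2) * p + v1) (3 * τ)) := by ring
        _ ≤ 8 * 4 ^ k * ((2 : ℝ) ^ Z * (k + 1)) * M := by gcongr
    have t4 : |(∑ m ∈ range M, ∏ i, TW 0 (v1 + K1 * p + L + (2 * q + 4) * p + K2 * p)
        (y i + (m : ℤ) * σ i)) / M| ^ (2 ^ k) ≤ ε ^ (2 ^ k) := by
      refine hbound.trans ?_
      have : ε ^ (2 ^ k) = e0 + e0 + e0 := by rw [he0]; ring
      rw [this]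
      linarith
    have t5 := (pow_le_pow_iff_left₀ (abs_nonneg _) hε.le (by positivity)).1 t4
    rw [abs_div, abs_of_pos hMR, div_le_iff₀ hMR] at t5
    exact t5
  · calc (k + 1) * 2 ^ (Z + g') ≤ 2 ^ (k + 1) * 2 ^ (Z + g') :=
          Nat.mul_le_mul_right _ Nat.lt_two_pow_self.le
      _ = 2 ^ g9 := by rw [← pow_add, hg9]; congr 1; omega
  · have e5 : (20 * q + 16) * p = 20 * (q * p) + 16 * p := by ring
    omega

end Pool.Agent.H20.T4
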