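import Pool.Agent.H9.TC.Stm
import Pool.Agent.H20.TM.Rec

/-!
Project TM4 (MP_b6022c_nt): the Thue-Morse sequence along quartic polynomials is normal.
Definitions used by all rows; paper scheme: team note 5529 and the notes that correct it.
`nn x` = distance of the real number `x` to the nearest integer (file `H20/TM/Rec.lean`).
-/

namespace Pool.Agent.H20.T4

open Finset Pool.Agent.H9.TC Pool.Agent.H20.TM

/-- The quartic polynomial `c x^4 + d x^3 + e x^2 + f x + g`. -/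
def qua (c d e f g x : ℤ) : ℤ := c * x ^ 4 + d * x ^ 3 + e * x ^ 2 + f * x + g

/-- Its derivative. -/
def dqua (c d e f x : ℤ) : ℤ := 4 * c * x ^ 3 + 3 * d * x ^ 2 + 2 * e * x + f

/-- The slopes `P_i'(n + s + r_i)`. -/
def slo {q : ℕ} (c : ℕ) (d e f r : Fin q → ℤ) (n : ℤ) (s : ℕ) (i : Fin q) : ℤ :=
  dqua c (d i) (e i) (f i) (n + s + r i)

/-- Number of `(s, x) in [0, A) × [0, B)` with `P s x`. -/
noncomputable def cnt2 (A B : ℕ) (P : ℕ → ℕ → Prop) : ℕ :=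
  ∑ x ∈ range B, cnt A (fun s => P s x)

/-- Number of `(s, x, m) in [0, A) × [0, B) × [0, M)` with `P s x m`. -/
noncomputable def cnt3 (A B M : ℕ) (P : ℕ → ℕ → ℕ → Prop) : ℕ :=
  ∑ m ∈ range M, cnt2 A B (fun s x => P s x m)

/-- Point properties of the slope `P'(x)` (one polynomial): the levels of `Gen`, the direction of
the lowest window, no small multiple modulo `2^va`. `uf = v1 + K1 p`, `va = uf + L + (2q+4)p`. -/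
def Pt (q p L g g9 v1 K1 K2 M τ c : ℕ) (d e f : ℤ) (x : ℤ) : Prop :=
  (∀ j ≤ K1, Nr M g (v1 + j * p) (dqua c d e f x)) ∧
  Nr M g (v1 + K1 * p + L) (dqua c d e f x) ∧
  (∀ j < K2, Nr M g (v1 + K1 * p + L + (2 * q + 4) * p + j * p) (dqua c d e f x)) ∧
  Dir (∅ : Finset (Fin q)) 1 1 (2 ^ ((2 * q + 2) * p)) (v1 + K1 * p) L g9 (fun _ => 0)
    ((2 : ℤ) ^ v1 * dqua c d e f x) ∧
  (∀ t : ℕ, 1 ≤ t → t ≤ 2 ^ τ → ¬ small (v1 + K1 * p + L + (2 * q + 4) * p)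
    ((2 : ℤ) ^ (v1 + K1 * p + L + (2 * q + 4) * p - 2 * τ)) ((t : ℤ) * dqua c d e f x))

/-- Bad base points for a window BELOW the final window (top `v <= uf`); `sb = σ - (16q+12)p` is
the exponent of the length of the short blocks; `κh, κt` bound the two parts of the shifts
`r_i = h_i + D t_i`. -/
def Bad2 (q c L g9 p v uf sb κh κt D : ℕ) (n : ℤ) : Prop :=
  ∃ k t : ℕ, ∃ As K Hs Ts Ds : ℤ,
    1 ≤ k ∧ k < 2 ^ ((4 * q + 3) * p) ∧ 1 ≤ t ∧ t < 2 ^ ((2 * q + 2) * p) ∧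
    |As| ≤ 2 ^ ((2 * q + 4) * p) ∧ |K| ≤ 2 * 4 ^ (L + g9) ∧ ¬ (2 : ℤ) ^ L ∣ K ∧
    |Hs| ≤ 2 ^ (κh + (2 * q + 4) * p) ∧ |Ts| ≤ 2 ^ (κt + (2 * q + 4) * p) ∧
    |Ds| ≤ 2 ^ ((2 * q + 4) * p) ∧
    small (uf + L) ((2 : ℤ) ^ (uf + L + (4 * q + 4) * p - sb))
      (2 * k * t * (2 ^ (uf + L - v) * (12 * c * (n * As + Hs + D * Ts) + 3 * Ds)
        + 12 * c * K * n))

/-- Bad base points for a window ABOVE the final window (top `v >= uf + L`). -/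
def Bad3 (q c L g9 p v uf σ : ℕ) (n : ℤ) : Prop :=
  ∃ k t : ℕ, ∃ As K : ℤ,
    1 ≤ k ∧ k < 2 ^ ((4 * q + 3) * p) ∧ 1 ≤ t ∧ t < 2 ^ ((2 * q + 2) * p) ∧
    |As| ≤ 2 ^ ((2 * q + 4) * p) ∧ |K| ≤ 2 * 4 ^ (L + g9) ∧ ¬ (2 : ℤ) ^ L ∣ K ∧
    As + 2 ^ (v - (uf + L)) * K ≠ 0 ∧
    small v ((2 : ℤ) ^ (v + (4 * q + 4) * p - σ))
      (24 * c * k * t * n * (As + 2 ^ (v - (uf + L)) * K))

/-- Bad base points for an elimination; `σ_*(s) - σ_i'(s) = Δ s^2 + (2 n Δ + Δ1) s + const`. -/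
def Bad5 (q L g9 p uf σ : ℕ) (Δ Δ1 : ℤ) (n : ℤ) : Prop :=
  ∃ t : ℕ, ∃ K : ℤ, 1 ≤ t ∧ t < 2 ^ ((2 * q + 2) * p) ∧
    |K| ≤ 2 * 4 ^ (L + g9) ∧ ¬ (2 : ℤ) ^ L ∣ K ∧
    small (uf + L) ((2 : ℤ) ^ (uf + L + (2 * q + 2) * p - σ)) (t * K * (2 * n * Δ + Δ1))

/-- `Δ` of two shifted polynomials. -/
def del (c : ℕ) (d d' r r' : ℤ) : ℤ := 12 * c * (r - r') + 3 * (d - d')

/-- `Δ1` of two shifted polynomials. -/
def del1 (c : ℕ) (d d' e e' r r' : ℤ) : ℤ :=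
  12 * c * (r ^ 2 - r' ^ 2) + 6 * (d * r - d' * r') + 2 * (e - e')

/-- Good base point `n` (of a row `n + s`, `s < 2^σ`, of the cell). -/
def Gb {q1 : ℕ} (q p L g9 v1 K1 K2 σ κh κt c D : ℕ) (d e : Fin q1 → ℤ) (n : ℤ) : Prop :=
  (∀ j < K1, cnt (2 ^ ((16 * q + 12) * p))
      (fun s1 => Bad2 q c L g9 p (v1 + (j + 1) * p) (v1 + K1 * p) (σ - (16 * q + 12) * p) κh κt D
        (n + s1 * 2 ^ (σ - (16 * q + 12) * p))) ≤ 2 ^ ((14 * q + 10) * p)) ∧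
  ¬ Bad3 q c L g9 p (v1 + K1 * p + L) (v1 + K1 * p) σ n ∧
  (∀ j < K2, ¬ Bad3 q c L g9 p (v1 + K1 * p + L + (2 * q + 4) * p + (j + 1) * p)
      (v1 + K1 * p) σ n) ∧
  (∀ i i' : Fin q1, ∀ h h' t t' : ℤ, |h| ≤ 2 ^ κh → |h'| ≤ 2 ^ κh → |t| ≤ 2 ^ κt →
    |t'| ≤ 2 ^ κt → del c (d i) (d i') (h + D * t) (h' + D * t') ≠ 0 →
    ¬ Bad5 q L g9 p (v1 + K1 * p) σ (del c (d i) (d i') (h + D * t) (h' + D * t'))
      (del1 c (d i) (d i') (e i) (e i') (h + D * t) (h' + D * t')) n)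

/-- The recurrence conditions on `D` at the point `n0` (gap window tops `2a + l w`, `l <= 480`). -/
def Dcond (c w a D : ℕ) (n0 : ℤ) : Prop :=
  ∀ l : ℕ, 1 ≤ l → l ≤ 480 →
    small (2 * a + l * w) ((2 : ℤ) ^ (2 * a + l * w - 430 * w)) (12 * c * D * n0 ^ 2) ∧
    small (2 * a + l * w) ((2 : ℤ) ^ (2 * a + l * w - 430 * w)) (24 * c * D * 2 ^ a * n0) ∧
    small (2 * a + l * w) ((2 : ℤ) ^ (2 * a + l * w - 430 * w)) (12 * c * D * 2 ^ (2 * a)) ∧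
    small (2 * a + l * w) ((2 : ℤ) ^ (2 * a + l * w - 430 * w)) (6 * c * D ^ 2 * n0 ^ 2) ∧
    small (2 * a + l * w) ((2 : ℤ) ^ (2 * a + l * w - 430 * w)) (12 * c * D ^ 2 * 2 ^ a * n0) ∧
    small (2 * a + l * w) ((2 : ℤ) ^ (2 * a + l * w - 430 * w)) (6 * c * D ^ 2 * 2 ^ (2 * a))

/-- The shift `H` is admissible for the window `[lo, v)` in the (doubled) cell of `n0`, for the
polynomials with coefficients bounded by `Cf`: all differences are close to multiples of `2^v`. -/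
def Close (c Cf g Z w a D lo v : ℕ) (n0 H : ℤ) : Prop :=
  ∀ d e f g' : ℤ, |d| ≤ Cf → |e| ≤ Cf → |f| ≤ Cf → |g'| ≤ Cf →
    ∀ s : ℕ, s < 2 ^ (400 * w + 1) → ∀ x : ℕ, x < 2 ^ (18 * w + 1) → ∀ m : ℕ, m ≤ 2 ^ w →
    ∀ j : ℤ, |j| ≤ 2 ^ Z →
      small v ((2 : ℤ) ^ (lo - g))
        (qua c d e f g' (n0 + s + D * x + 2 ^ a * m + j * H)
          - qua c d e f g' (n0 + s + D * x + 2 ^ a * m))

/-- Good cell. `σ = 400 w`, `S = 2^σ`, `X = 2^(18w)`, `κh = 72 w`, `κt = 18 w`; near-boundary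
levels `2a + l w` for `l <= kk` below `V`. -/
def CellGood {q1 : ℕ} (q p L g g9 v1 K1 K2 M τ c kk w a V D : ℕ) (ε : ℝ)
    (d e f g' : Fin q1 → ℤ) (n0 : ℤ) : Prop :=
  (∀ i, ∀ l ≤ kk, 2 * a + l * w ≤ V →
    (cnt3 (2 ^ (400 * w + 1)) (2 ^ (18 * w + 1)) M
      (fun s x m => near (2 * a + l * w) ((2 : ℤ) ^ (2 * a + l * w - g))
        (qua c (d i) (e i) (f i) (g' i) (n0 + s + D * x + 2 ^ a * m))) : ℝ)
      ≤ ε * (2 ^ (400 * w) * 2 ^ (18 * w) * M)) ∧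
  (∀ i, (cnt2 (2 ^ (400 * w + 1)) (2 ^ (18 * w + 1))
      (fun s x => ¬ Pt q p L g g9 v1 K1 K2 M τ c (d i) (e i) (f i) (n0 + s + D * x)) : ℝ)
      ≤ ε * (2 ^ (400 * w) * 2 ^ (18 * w))) ∧
  ((cnt (2 ^ (18 * w)) (fun x => ¬ Gb q p L g9 v1 K1 K2 (400 * w) (72 * w) (18 * w) c D d e
      (n0 + D * x)) : ℝ) ≤ ε * 2 ^ (18 * w))

end Pool.Agent.H20.T4
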