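import Pool.Agent.H20.T4.Asm2
import Pool.Agent.H34.T4.N4

/-!
Project TM4 (MP_b6022c_nt): the Thue-Morse sequence along quartic polynomials is normal, without
hypotheses.
-/

namespace Pool.Agent.H20.T4

open Filter Topology Finset Pool.Agent.H9.TC

/-- (THM A4). -/
theorem thmA4 : ThmAStmt := asm2 (Pool.Agent.H34.T4.n4 m0Stmt gStmt Pool.Agent.H48.T4.w3)

/-- (THM B4) for every rational polynomial of degree 4 with values in the natural numbers, every
word of length `k` has frequency `(1/2)^k` in the sequence `n ↦ t(P(n))`. -/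
theorem thmB4 (P : Polynomial ℚ) (hd : P.natDegree = 4) (hP : NaturalValued P) (k : ℕ)
    (w : Fin k → Fin 2) :
    Tendsto (fun N : ℕ => (((range N).filter
      (fun n => ∀ i : Fin k, thueMorse (val P (n + i)) = (w i : ℕ))).card : ℝ) / N)
      atTop (𝓝 ((1 / 2 : ℝ) ^ k)) :=
  Pool.Agent.H43.T4.thmB4 thmA4 P hd hP k w

end Pool.Agent.H20.T4
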